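import Pool.Agent.K9h65.MD.Sym
import Pool.Agent.K9h65.MD.Br
import Pool.Agent.K9h65.MD.ConMap2
import Pool.Agent.K9h65.MD.Seq2
import Pool.Agent.K9h65.MD.Lim2
import Pool.Agent.K9h65.MD.Hol
import Pool.Agent.K9h65.MD.Hol2
import Pool.Agent.K9h65.MD.Fin2

/-!
# Metric mean dimension of interval maps with a given modulus of continuity

For every concave modulus of continuity `w` the upper and the lower metric mean dimension of the maps of `[0,1]`
with modulus `K w`, `K` arbitrary, have the maxima `D w` and `DL w`, the limit superior and the limit inferior of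
`log (w(ε) / ε) / |log ε|`, and one map attains both. So upper metric mean dimension one is excluded for all
these maps if and only if `w` is Hölder, and lower metric mean dimension one if and only if `w(ε) ≤ ε ^ α` for
some `α > 0` and arbitrarily small `ε`.

The upper bound for Hölder maps is, as far as I recall, contained in a paper of Baraviera, Carvalho and Pessil
(Metric mean dimension, Hölder regularity and Assouad spectrum, 2024). The extremal map is a zigzag with `N_k`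
branches on intervals of length `l_k` about `w(e^{-k}) / k^2`, `N_k` about `l_k e^k`.
-/

set_option autoImplicit false

namespace Pool.Agent.Results.MP_428550_an.ModuliOfContinuity

open Filter Topology

/-- The interval `[0,1]`. -/
abbrev I : Type := Set.Icc (0 : ℝ) 1

/-- `d_n(x,y) = max_{0 ≤ j < n} |φ^j(x) - φ^j(y)|`. -/
noncomputable def dn (φ : I → I) (n : ℕ) (x y : I) : ℝ :=
  ⨆ j : Fin n, |((φ^[j] x : I) : ℝ) - ((φ^[j] y : I) : ℝ)|

/-- `A` is `(n, φ, ε)`-separated. -/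
def Separated (φ : I → I) (n : ℕ) (ε : ℝ) (A : Finset I) : Prop :=
  ∀ x ∈ A, ∀ y ∈ A, x ≠ y → ε < dn φ n x y

/-- `sep(n, φ, ε)`: the maximal cardinality of an `(n, φ, ε)`-separated set. -/
noncomputable def sepN (φ : I → I) (n : ℕ) (ε : ℝ) : ENNReal :=
  ⨆ A : {A : Finset I // Separated φ n ε A}, ((A.1.card : ℕ) : ENNReal)

/-- `sep(φ, ε) = limsup (1/n) log sep(n, φ, ε)`. -/
noncomputable def sepRate (φ : I → I) (ε : ℝ) : EReal :=
  limsup (fun n : ℕ => ENNReal.log (sepN φ n ε) / ((n : ℝ) : EReal)) atTop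

/-- The upper metric mean dimension. -/
noncomputable def upperMdim (φ : I → I) : EReal :=
  limsup (fun ε : ℝ => sepRate φ ε / ((|Real.log ε| : ℝ) : EReal)) (𝓝[>] 0)

/-- The lower metric mean dimension. -/
noncomputable def lowerMdim (φ : I → I) : EReal :=
  liminf (fun ε : ℝ => sepRate φ ε / ((|Real.log ε| : ℝ) : EReal)) (𝓝[>] 0)

/-- `w` is a concave modulus of continuity: concave and nondecreasing on `[0, ∞)`, `w 0 = 0`,
`w (t) → 0` as `t → 0`, and not identically zero. -/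
structure IsMod (w : ℝ → ℝ) : Prop where
  conc : ConcaveOn ℝ (Set.Ici 0) w
  mono : MonotoneOn w (Set.Ici 0)
  zero : w 0 = 0
  lim : Tendsto w (𝓝[>] 0) (𝓝 0)
  pos : 0 < w 1

/-- `φ` has the modulus of continuity `K w`. -/
def HasMod (w : ℝ → ℝ) (K : ℝ) (φ : I → I) : Prop :=
  ∀ x y : I, |((φ x : I) : ℝ) - ((φ y : I) : ℝ)| ≤ K * w |(x : ℝ) - (y : ℝ)|

/-- The exponent `limsup log (w(ε) / ε) / |log ε| = 1 - liminf log w(ε) / log ε`. -/
noncomputable def D (w : ℝ → ℝ) : EReal :=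
  limsup (fun ε : ℝ => ((Real.log (w ε / ε) / |Real.log ε| : ℝ) : EReal)) (𝓝[>] 0)

/-- The exponent `liminf log (w(ε) / ε) / |log ε|`. -/
noncomputable def DL (w : ℝ → ℝ) : EReal :=
  liminf (fun ε : ℝ => ((Real.log (w ε / ε) / |Real.log ε| : ℝ) : EReal)) (𝓝[>] 0)

/-- Let `w` be a concave modulus of continuity.
1. Every map `φ : [0,1] → [0,1]` with modulus of continuity `K w`, for some `K`, satisfies
`sep(φ, ε) ≤ log (w(ε) / ε) + C` for all `ε` in `(0,1)`, and has upper metric mean dimension at most `D w` and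
lower metric mean dimension at most `DL w`.
2. There is one such map with `sep(φ, ε) ≥ log (w(ε) / ε) - 2 log (1 + |log ε|) - C` for all `ε` in `(0,1)`, whose
upper metric mean dimension is `D w` and whose lower metric mean dimension is `DL w`.
3. No such map has upper metric mean dimension one if and only if `w` is Hölder: `w(x) ≤ C x ^ α` on `[0,1]`
for some `α > 0` and `C`.
4. No such map has lower metric mean dimension one if and only if for some `α > 0` there are arbitrarily small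
`ε > 0` with `w(ε) ≤ ε ^ α`. -/
theorem result (w : ℝ → ℝ) (hw : IsMod w) :
    (∀ (φ : I → I) (K : ℝ), HasMod w K φ →
      (∃ C : ℝ, ∀ ε : ℝ, 0 < ε → ε < 1 → sepRate φ ε ≤ ((Real.log (w ε / ε) + C : ℝ) : EReal)) ∧
      upperMdim φ ≤ D w ∧ lowerMdim φ ≤ DL w) ∧
    (∃ (φ : I → I) (K : ℝ), HasMod w K φ ∧
      (∃ C : ℝ, ∀ ε : ℝ, 0 < ε → ε < 1 →
        ((Real.log (w ε / ε) - 2 * Real.log (1 + |Real.log ε|) - C : ℝ) : EReal) ≤ sepRate φ ε) ∧
      upperMdim φ = D w ∧ lowerMdim φ = DL w) ∧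
    ((∀ (φ : I → I) (K : ℝ), HasMod w K φ → upperMdim φ ≠ 1) ↔
      ∃ α : ℝ, 0 < α ∧ ∃ C : ℝ, ∀ x : ℝ, 0 ≤ x → x ≤ 1 → w x ≤ C * x ^ α) ∧
    ((∀ (φ : I → I) (K : ℝ), HasMod w K φ → lowerMdim φ ≠ 1) ↔
      ∃ α : ℝ, 0 < α ∧ ∃ᶠ ε : ℝ in 𝓝[>] 0, w ε ≤ ε ^ α) :=
  Pool.Agent.K9h65.MD.fin2 Pool.Agent.K9h65.MD.con2
    (Pool.Agent.K9h65.MD.br Pool.Agent.K9h65.MD.sym)
    Pool.Agent.K9h65.MD.seq2 Pool.Agent.K9h65.MD.lu Pool.Agent.K9h65.MD.ll
    Pool.Agent.K9h65.MD.hol Pool.Agent.K9h65.MD.holl w ⟨hw.conc, hw.mono, hw.zero, hw.lim, hw.pos⟩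

end Pool.Agent.Results.MP_428550_an.ModuliOfContinuity
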